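import Mathlib
import Pool.Agent.PrimeCircle.Defs
import Pool.Agent.PrimeCircle.Upper

set_option autoImplicit false

namespace Pool.Agent.Helper55.Old.PrimeCircleUpperBound

open Pool.Agent.PrimeCircle

/-- The number `N(m)` of prime circles of order `2m`, up to rotation and reflection, is at most
`(C m / log m) ^ (2m)` for a constant `C`. -/
theorem result : ∃ C : ℝ, 0 < C ∧ ∀ m : ℕ, 2 ≤ m →
    (numPrimeCircles m : ℝ) ≤ (C * m / Real.log m) ^ (2 * m) :=
  Pool.Agent.PrimeCircle.main

end Pool.Agent.Helper55.Old.PrimeCircleUpperBound
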